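import Pool.Agent.H53.GR.Targets

/-!
# MP_6ab439_lc, board `gar_modules`: module PCT (the partite construction)
-/

set_option autoImplicit false

namespace Pool.Agent.H36.GR

open Pool.Agent.H68.BP Pool.Agent.H58.SF Pool.Agent.H53.GC Pool.Agent.H53.NR Pool.Agent.H58.GR
open Pool.Agent.H53.GR

section

variable {τ : Sig} {V Q : Type} [LinearOrder Q] {a b : ℕ}

/-- the part of a point -/
def pi0 (S : Set (Fin b → Q)) (x : S × Fin b) : Q := x.1.1 x.2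

/-- disjoint copies of the structure -/
def str0 (S : Set (Fin b → Q)) (𝕏 : Str τ (Fin b)) : Str τ (S × Fin b) :=
  fun l z => ∃ (β : S) (z0 : Fin (τ.ar l) → Fin b), z = (fun i => (β, z0 i)) ∧ 𝕏 l z0

theorem pull_copy {W : Type} (S : Set (Fin b → Q)) (𝕏 : Str τ (Fin b)) (β : S) (g : W → Fin b) :
    pull (str0 S 𝕏) (fun i => (β, g i)) = pull 𝕏 g := by
  funext l z
  apply propext
  constructor
  · rintro ⟨β', z0, hz, h⟩
    have h2 : (fun i => g (z i)) = z0 := by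
      funext i
      exact congrArg Prod.snd (congrFun hz i)
    show 𝕏 l (fun i => g (z i))
    rw [h2]
    exact h
  · intro h
    exact ⟨β, fun i => g (z i), rfl, h⟩

theorem copy0 {S : Set (Fin b → Q)} {𝔸 : Str τ (Fin a)} {𝕏 : Str τ (Fin b)} (β : S)
    {f : Fin a → Fin b} (hf : OCopy 𝔸 𝕏 f) :
    SCopy (pi0 S) (str0 S 𝕏) (fun i => β.1 (f i)) 𝔸 (fun i => (β, f i)) where
  part := fun i => rfl
  str := (pull_copy S 𝕏 β f).trans hf.2

theorem ok_copy {𝔹 : Str τ V} {M : ℕ} {𝔸 : Str τ (Fin a)} {𝕏 : Str τ (Fin b)} {f : Fin a → Fin b}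
    (hf : OCopy 𝔸 𝕏 f) (h : OK 𝔹 M 𝕏) : OK 𝔹 M 𝔸 := by
  intro m s hm hs hirr
  rw [← hf.2] at hirr ⊢
  exact h m (fun i => f (s i)) hm (fun i j hij => hs (hf.1.injective hij)) hirr

theorem irr_fst {S : Set (Fin b → Q)} {𝕏 : Str τ (Fin b)} {m : ℕ} {s : Fin m → S × Fin b}
    (h : Irreducible (pull (str0 S 𝕏) s)) (i j : Fin m) : (s i).1 = (s j).1 := by
  by_cases hij : i = j
  · rw [hij]
  · obtain ⟨l, z, ⟨β, z0, hz, _⟩, ⟨p, hp⟩, q, hq⟩ := h i j hij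
    have h1 : s i = (β, z0 p) := by
      rw [← hp]
      exact congrFun hz p
    have h2 : s j = (β, z0 q) := by
      rw [← hq]
      exact congrFun hz q
    rw [h1, h2]

theorem irr_pull (har : ∀ l, 1 ≤ τ.ar l) {S : Set (Fin b → Q)} {𝕏 : Str τ (Fin b)} {m : ℕ}
    {s : Fin m → S × Fin b} (h : Irreducible (pull (str0 S 𝕏) s)) :
    pull (str0 S 𝕏) s = pull 𝕏 (fun i => (s i).2) := by
  funext l z
  apply propext
  constructor
  · rintro ⟨β, z0, hz, h0⟩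
    have h2 : (fun i => (s (z i)).2) = z0 := by
      funext i
      exact congrArg Prod.snd (congrFun hz i)
    show 𝕏 l (fun i => (s (z i)).2)
    rw [h2]
    exact h0
  · intro h0
    refine ⟨(s (z ⟨0, har l⟩)).1, fun i => (s (z i)).2, ?_, h0⟩
    funext i
    exact Prod.ext (irr_fst h _ _) rfl

theorem sok0 (har : ∀ l, 1 ≤ τ.ar l) {𝔹 : Str τ V} {M : ℕ} {𝕏 : Str τ (Fin b)}
    {S : Set (Fin b → Q)} (hS : ∀ β ∈ S, StrictMono β) {𝕐 : Str τ Q}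
    (h1 : ∀ β ∈ S, 𝕏 = pull 𝕐 β) (h3 : OK 𝔹 M 𝕏) : SOK 𝔹 M 𝕐 (pi0 S) (str0 S 𝕏) where
  trans := fun l z hz i j hij => by
    obtain ⟨β, z0, rfl, _⟩ := hz
    have h : z0 i = z0 j := (hS _ β.2).injective hij
    show (β, z0 i) = (β, z0 j)
    rw [h]
  hemb := fun m s _ hirr => by
    rw [irr_pull har hirr]
    funext l z
    have hβ := h1 _ (s (z ⟨0, har l⟩)).1.2
    show 𝕏 l (fun i => (s (z i)).2) = 𝕐 l (fun i => (s (z i)).1.1 (s (z i)).2)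
    have h2 : 𝕏 l (fun i => (s (z i)).2) =
        𝕐 l (fun i => (s (z ⟨0, har l⟩)).1.1 (s (z i)).2) :=
      congrFun (congrFun hβ l) (fun i => (s (z i)).2)
    rw [h2]
    congr 1
    funext i
    rw [irr_fst hirr (z ⟨0, har l⟩) (z i)]
  real := fun m s hm hs hirr => by
    have hd := irr_pull har hirr
    rw [hd] at hirr ⊢
    refine h3 m (fun i => (s i).2) hm (fun i j hij => hs ?_) hirr
    rw [← hd] at hirr
    exact Prod.ext (irr_fst hirr i j) hij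

end

theorem pf_PCT (h : Pool.Agent.H53.GR.T_ITR) : Pool.Agent.H53.GR.T_PCT := by
  classical
  intro τ V Q κ _ _ _ _ 𝔹 M a b 𝔸 𝕏 S har hS harrow
  -- the list of the maps
  obtain ⟨l, hl⟩ : ∃ l : List (Fin a → Q), ∀ α, α ∈ l ↔
      ∃ β ∈ S, ∃ f : Fin a → Fin b, OCopy 𝔸 𝕏 f ∧ α = fun i => β (f i) := by
    have hfin : Set.Finite {α : Fin a → Q | ∃ β ∈ S, ∃ f : Fin a → Fin b,
        OCopy 𝔸 𝕏 f ∧ α = fun i => β (f i)} := Set.toFinite _
    refine ⟨hfin.toFinset.toList, fun α => ?_⟩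
    rw [Finset.mem_toList, Set.Finite.mem_toFinset]
    exact Iff.rfl
  have hlm : ∀ α ∈ l, StrictMono α := by
    intro α hα
    obtain ⟨β, hβ, f, hf, rfl⟩ := (hl α).1 hα
    exact fun i j hij => hS β hβ (hf.1 hij)
  obtain ⟨P', hP', π', 𝕏', hc, hok⟩ := h τ V Q κ 𝔹 M a 𝔸 l har hlm (S × Fin b)
    (pi0 S) (str0 S 𝕏)
  refine ⟨P', hP', π', 𝕏', ?_, ?_⟩
  · intro χ
    obtain ⟨φ0, hφ0, hhom⟩ := hc χ
    obtain ⟨k0⟩ := (inferInstance : Nonempty κ)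
    obtain ⟨χ', hχ'⟩ : ∃ χ' : (Fin a → Q) → κ, ∀ α e, α ∈ l →
        SCopy (pi0 S) (str0 S 𝕏) α 𝔸 e → χ' α = χ (fun i => φ0 (e i)) := by
      refine ⟨fun α => if hα : ∃ e, SCopy (pi0 S) (str0 S 𝕏) α 𝔸 e then
        χ (fun i => φ0 (hα.choose i)) else k0, fun α e hαl he => ?_⟩
      have hα : ∃ e, SCopy (pi0 S) (str0 S 𝕏) α 𝔸 e := ⟨e, he⟩
      show (if hα : ∃ e, SCopy (pi0 S) (str0 S 𝕏) α 𝔸 e then
        χ (fun i => φ0 (hα.choose i)) else k0) = _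
      rw [dif_pos hα]
      exact hhom α hαl _ _ hα.choose_spec he
    obtain ⟨β, hβ, hmono⟩ := harrow χ'
    refine ⟨fun i => φ0 (⟨β, hβ⟩, i), ?_, ?_, ?_⟩
    · intro i j hij
      show π' (φ0 _) < π' (φ0 _)
      rw [hφ0.part, hφ0.part]
      exact hS β hβ hij
    · have h1 : pull 𝕏' (fun i : Fin b => φ0 ((⟨β, hβ⟩ : S), i)) =
          pull (pull 𝕏' φ0) (fun i : Fin b => ((⟨β, hβ⟩ : S), i)) := rfl
      rw [h1, hφ0.str, pull_copy S 𝕏 ⟨β, hβ⟩ (fun i => i)]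
      rfl
    · intro f f' hf hf'
      have key : ∀ g : Fin a → Fin b, OCopy 𝔸 𝕏 g →
          χ' (fun i => β (g i)) = χ (fun i => φ0 (⟨β, hβ⟩, g i)) := by
        intro g hg
        exact hχ' _ (fun i => ((⟨β, hβ⟩ : S), g i)) ((hl _).2 ⟨β, hβ, g, hg, rfl⟩)
          (copy0 (⟨β, hβ⟩ : S) hg)
      show χ (fun i => φ0 (⟨β, hβ⟩, f i)) = χ (fun i => φ0 (⟨β, hβ⟩, f' i))
      rw [← key f hf, ← key f' hf']
      exact hmono f f' hf hf'
  · intro 𝕐 h1 h3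
    refine hok 𝕐 ?_ ?_ (sok0 har hS h1 h3)
    · intro α hα
      obtain ⟨β, hβ, f, hf, rfl⟩ := (hl α).1 hα
      rw [← hf.2, h1 β hβ]
      rfl
    · intro hne
      obtain ⟨α, hα⟩ := List.exists_mem_of_ne_nil l hne
      obtain ⟨β, hβ, f, hf, rfl⟩ := (hl α).1 hα
      exact ok_copy hf h3

end Pool.Agent.H36.GR

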